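import Mathlib

/-!
# Nefness of line bundles on closed subvarieties of products of projective spaces

We work with closed subvarieties of `∏ⱼ ℙ^(nⱼ-1)` given by an ideal of polynomials over `ℤ` in
coordinates `x_{j,l}` (`j` the block, `l` the coordinate).  Nefness of the restriction of
`𝒪(a₁,…,a_r)` is tested on all maps from smooth projective curves, i.e. on points with values in
function fields of one variable `K/k`; the degree of the pull-back of `𝒪(1)` under a point
`x ∈ ℙⁿ(K)` is `∑_v - min_i ord_v (x_i)`, the sum over all places of `K/k`.
-/

namespace NefRed

open scoped WithZero

/-- `K` is a function field of one variable over `k`. -/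
def IsFunctionField (k K : Type) [Field k] [Field K] [Algebra k K] : Prop :=
  ∃ T : K, Transcendental k T ∧ FiniteDimensional (IntermediateField.adjoin k {T}) K

/-- The places of `K/k`: the normalised discrete valuations of `K` that are trivial on `k`
(for `k` algebraically closed and `K/k` a function field of one variable these are the points of
the smooth projective curve with function field `K`).  Multiplicative convention:
`v f = exp (-ord_v f)`. -/
structure Place (k K : Type) [Field k] [Field K] [Algebra k K] where
  val : Valuation K ℤᵐ⁰
  surj : Function.Surjective val
  triv : ∀ c : k, c ≠ 0 → val (algebraMap k K c) = 1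

/-- `max_i |x_i|_v` -/
def vmax {K ι : Type} [Field K] [Fintype ι] (v : Valuation K ℤᵐ⁰) (x : ι → K) : ℤᵐ⁰ :=
  Finset.univ.sup fun i => v (x i)

/-- The degree of the pull-back of `𝒪(1)` to the smooth projective curve with function field `K`
under the morphism to projective space given by the (nonzero) tuple `x`:
`∑_v log (max_i |x_i|_v) = ∑_v - min_i ord_v (x_i)`. -/
noncomputable def degO1 (k : Type) {K ι : Type} [Field k] [Field K] [Algebra k K] [Fintype ι]
    (x : ι → K) : ℤ :=
  ∑ᶠ v : Place k K, WithZero.log (vmax v.val x)

end NefRed
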